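import Mathlib

set_option autoImplicit false

namespace Pool.Agent.Results.MP_708c97_co.Counter

open SimpleGraph

/-- Chordal: every cycle of length `m + 4 ≥ 4` (distinct vertices `f 0, f 1, …`, cyclically
consecutive ones adjacent) has an edge between two cyclically non-consecutive vertices. -/
def Chordal {V : Type} (G : SimpleGraph V) : Prop :=
  ∀ (m : ℕ) (f : Fin (m + 4) → V), Function.Injective f → (∀ i, G.Adj (f i) (f (i + 1))) →
    ∃ i j, G.Adj (f i) (f j) ∧ j ≠ i + 1 ∧ i ≠ j + 1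

/-- `S` meets every path on `k` vertices (not necessarily induced). -/
def PathCover {V : Type} (G : SimpleGraph V) (k : ℕ) (S : Finset V) : Prop :=
  ∀ f : Fin k → V, Function.Injective f →
    (∀ i j : Fin k, i.val + 1 = j.val → G.Adj (f i) (f j)) → ∃ i, f i ∈ S

/-- The `k`-path vertex cover number `ψ_k(G)`. -/
noncomputable def psi {V : Type} (G : SimpleGraph V) (k : ℕ) : ℕ :=
  sInf {s | ∃ S : Finset V, PathCover G k S ∧ S.card = s}

def rows : List ℕ :=
  [46, 157, 2659, 1043, 50570, 69701, 4644, 274, 16528, 10308, 32792, 8708, 65632, 2560, 272,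
   1040, 4128]

def adj (u v : Fin 17) : Bool := (rows.getD u.val 0).testBit v.val

def G : SimpleGraph (Fin 17) where
  Adj u v := adj u v = true
  symm := ⟨by decide +kernel⟩
  loopless := ⟨by decide +kernel⟩

instance : DecidableRel G.Adj := fun u v => inferInstanceAs (Decidable (adj u v = true))

lemma peo : ∀ v a : Fin 17, a ≤ v → G.Adj v a → ∀ b : Fin 17, b ≤ v → G.Adj v b → a ≠ b →
    G.Adj a b := by decide +kernel

lemma chordal : Chordal G := by
  intro m f hf h
  obtain ⟨i, -, hi⟩ := Finset.exists_max_image Finset.univ f Finset.univ_nonempty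
  have h2 : (1 : Fin (m + 4)) + 1 ≠ 0 := by
    intro e
    have := congrArg Fin.val e
    simp [Fin.val_add, Nat.mod_eq_of_lt] at this
  have h3 : (1 : Fin (m + 4)) + 1 + 1 ≠ 0 := by
    intro e
    have := congrArg Fin.val e
    simp [Fin.val_add, Nat.mod_eq_of_lt] at this
  have h1 : (1 : Fin (m + 4)) ≠ 0 := by simp
  refine ⟨i - 1, i + 1, peo (f i) _ (hi _ (Finset.mem_univ _)) ?_ _ (hi _ (Finset.mem_univ _))
    (h i) (fun e => h2 ?_), fun e => h1 ?_, fun e => h3 ?_⟩
  · have := h (i - 1)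
    rw [sub_add_cancel] at this
    exact this.symm
  · have := hf e
    rw [sub_eq_iff_eq_add, add_assoc] at this
    exact (add_eq_left.1 this.symm)
  · rw [sub_add_cancel] at e
    exact add_eq_left.1 e
  · rw [sub_eq_iff_eq_add, add_assoc, add_assoc, ← add_assoc 1] at e
    exact (add_eq_left.1 e.symm)

lemma back : ∀ v : Fin 17, (Finset.univ.filter fun u => u ≤ v ∧ G.Adj v u).card ≤ 2 := by
  decide +kernel

lemma omega3 : G.cliqueNum = 3 := by
  apply le_antisymm
  · obtain ⟨s, hs⟩ := G.exists_isNClique_cliqueNum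
    rw [← hs.card_eq]
    rcases s.eq_empty_or_nonempty with rfl | hne
    · simp
    · obtain ⟨v, hv, hm⟩ := Finset.exists_max_image s id hne
      have hsub : s.erase v ⊆ Finset.univ.filter fun u => u ≤ v ∧ G.Adj v u := by
        intro u hu
        obtain ⟨h1, h2⟩ := Finset.mem_erase.1 hu
        exact Finset.mem_filter.2 ⟨Finset.mem_univ _, hm u h2, hs.isClique hv h2 h1.symm⟩
      have := (Finset.card_le_card hsub).trans (back v)
      rw [Finset.card_erase_of_mem hv] at this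
      omega
  · have : G.IsClique (({0, 1, 2} : Finset (Fin 17)) : Set (Fin 17)) := by
      have h : ∀ a ∈ ({0, 1, 2} : Finset (Fin 17)), ∀ b ∈ ({0, 1, 2} : Finset (Fin 17)),
          a ≠ b → G.Adj a b := by decide +kernel
      exact fun a ha b hb hab => h a ha b hb hab
    exact this.card_le_cliqueNum

def L : List (Fin 6 → Fin 17) :=
  [![0, 1, 2, 5, 6, 9], ![3, 10, 4, 7, 8, 14], ![11, 13, 9, 6, 12, 16], ![13, 11, 2, 1, 4, 15],
   ![12, 5, 0, 3, 10, 15], ![8, 7, 1, 0, 5, 16], ![3, 1, 2, 6, 12, 16], ![3, 0, 2, 9, 11, 13],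
   ![14, 4, 3, 0, 5, 16], ![9, 2, 1, 7, 8, 14], ![0, 1, 7, 4, 10, 15], ![5, 12, 6, 2, 11, 13],
   ![9, 11, 2, 5, 12, 16], ![13, 9, 2, 6, 5, 16], ![1, 3, 10, 15, 4, 8], ![7, 8, 14, 4, 10, 15],
   ![0, 3, 1, 7, 8, 14], ![6, 2, 0, 3, 10, 15], ![0, 5, 6, 9, 11, 13], ![1, 3, 10, 15, 4, 7],
   ![8, 7, 1, 3, 10, 15], ![4, 1, 0, 5, 12, 16], ![1, 3, 4, 7, 8, 14], ![0, 3, 4, 7, 8, 14],
   ![0, 1, 2, 6, 12, 16]]

lemma L_paths : ∀ p ∈ L, (∀ i j, p i = p j → i = j) ∧
    ∀ i j : Fin 6, i.val + 1 = j.val → G.Adj (p i) (p j) := by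
  have h : (L.all fun p => decide ((∀ i j, p i = p j → i = j) ∧
      ∀ i j : Fin 6, i.val + 1 = j.val → G.Adj (p i) (p j))) = true := by decide +kernel
  intro p hp
  exact of_decide_eq_true (List.all_eq_true.1 h p hp)

def M : List ℕ :=
  [615, 17816, 80448, 43030, 37929, 65955, 69710, 10765, 81977, 17286, 33939, 14436, 72228, 74340, 34074, 50576, 16779, 33869, 10849, 33946, 34186, 69683, 16794, 16793, 69703]

lemma link : ∀ m ∈ M, ∃ p ∈ L, ∀ i, m.testBit (p i).val = true := by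
  have h : (M.all fun m => L.any fun p => decide (∀ i, m.testBit (p i).val = true)) = true := by
    decide +kernel
  intro m hm
  obtain ⟨p, hp, h'⟩ := List.any_eq_true.1 (List.all_eq_true.1 h m hm)
  exact ⟨p, hp, of_decide_eq_true h'⟩

def chk : Bool :=
  (List.range 17).all fun d => (List.range d).all fun c => (List.range c).all fun b =>
    (List.range b).all fun a => M.any fun m =>
      !m.testBit a && !m.testBit b && !m.testBit c && !m.testBit d

lemma chk_true : chk = true := by decide +kernel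

lemma L_miss (a b : Fin 17) (hab : a < b) (c : Fin 17) (hbc : b < c) (d : Fin 17) (hcd : c < d) :
    ∃ p ∈ L, ∀ i, p i ≠ a ∧ p i ≠ b ∧ p i ≠ c ∧ p i ≠ d := by
  have h := chk_true
  simp only [chk, List.all_eq_true, List.mem_range, List.any_eq_true, Bool.and_eq_true,
    Bool.not_eq_true'] at h
  obtain ⟨m, hm, ⟨⟨h1, h2⟩, h3⟩, h4⟩ := h d.val d.2 c.val hcd b.val hbc a.val hab
  obtain ⟨p, hp, hi⟩ := link m hm
  refine ⟨p, hp, fun i => ⟨?_, ?_, ?_, ?_⟩⟩ <;> intro e <;> have := hi i <;> rw [e] at this <;>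
    simp_all

lemma five (S : Finset (Fin 17)) (hS : PathCover G 6 S) : 5 ≤ S.card := by
  by_contra h
  obtain ⟨E, hSE, hE⟩ := Finset.exists_superset_card_eq (s := S) (n := 4) (by omega) (by simp)
  let e := E.orderEmbOfFin hE
  obtain ⟨p, hp, hm⟩ := L_miss (e 0) (e 1) (e.strictMono (by decide)) (e 2)
    (e.strictMono (by decide)) (e 3) (e.strictMono (by decide))
  obtain ⟨i, hi⟩ := hS p (L_paths p hp).1 (L_paths p hp).2
  have : p i ∈ Set.range e := by
    rw [Finset.range_orderEmbOfFin]; exact hSE hi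
  obtain ⟨j, hj⟩ := this
  obtain ⟨h0, h1, h2, h3⟩ := hm i
  fin_cases j
  · exact h0 hj.symm
  · exact h1 hj.symm
  · exact h2 hj.symm
  · exact h3 hj.symm

theorem result : ∃ H : SimpleGraph (Fin 17), Chordal H ∧ H.cliqueNum = 3 ∧
    ((H.cliqueNum : ℚ) - 1) / (H.cliqueNum + 6 - 2) * 17 < psi H 6 := by
  refine ⟨G, chordal, omega3, ?_⟩
  have h : 5 ≤ psi G 6 := by
    refine le_csInf ⟨_, Finset.univ, fun f _ _ => ⟨0, Finset.mem_univ _⟩, rfl⟩ ?_
    rintro k ⟨S, hS, rfl⟩
    exact five S hS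
  have h' : (5 : ℚ) ≤ psi G 6 := by exact_mod_cast h
  rw [omega3]
  norm_num
  linarith

end Pool.Agent.Results.MP_708c97_co.Counter
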